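import Pool.Agent.Helper22.NP.Basic

/-! Hasse-Arf for cyclic quotients. -/

set_option autoImplicit false

namespace Pool.Agent.Helper22.NP

open scoped Classical

/-! ### numerical part -/

theorem har_blocks (p N : ℕ) (g : ℕ → ℤ) : ∑ a ∈ Finset.range (p * N), g a =
    ∑ b ∈ Finset.range N, ∑ r ∈ Finset.range p, g (p * b + r) := by
  induction N with
  | zero => simp
  | succ N ih => rw [Nat.mul_succ, Finset.sum_range_add, ih, Finset.sum_range_succ]

/-- sum of `f (v_p a)` over `0 < a < p ^ n` -/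
noncomputable def harS (p n : ℕ) (f : ℕ → ℤ) : ℤ :=
  ∑ a ∈ Finset.range (p ^ n), if a = 0 then 0 else f (padicValNat p a)

theorem harS_succ (p : ℕ) [hp : Fact p.Prime] (n : ℕ) (f : ℕ → ℤ) :
    harS p (n + 1) f = ((p : ℤ) ^ (n + 1) - (p : ℤ) ^ n) * f 0 + harS p n (fun j => f (j + 1)) := by
  have hp0 : 0 < p := hp.out.pos
  have key : ∀ b, ∑ r ∈ Finset.range p, (if p * b + r = 0 then (0 : ℤ) else
      f (padicValNat p (p * b + r))) =
      ((p : ℤ) - 1) * f 0 + (if b = 0 then 0 else f (padicValNat p b + 1)) := by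
    intro b
    rw [← Finset.add_sum_erase _ _ (Finset.mem_range.2 hp0)]
    have h1 : ∑ r ∈ (Finset.range p).erase 0, (if p * b + r = 0 then (0 : ℤ) else
        f (padicValNat p (p * b + r))) = ∑ r ∈ (Finset.range p).erase 0, f 0 := by
      apply Finset.sum_congr rfl
      intro r hr
      rw [Finset.mem_erase, Finset.mem_range] at hr
      have h2 : ¬ p ∣ p * b + r := by
        intro h3
        have h4 := (Nat.dvd_add_right (Dvd.intro b rfl)).1 h3
        exact absurd (Nat.le_of_dvd (Nat.pos_of_ne_zero hr.1) h4) (not_le.2 hr.2)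
      rw [if_neg (by omega), padicValNat.eq_zero_of_not_dvd h2]
    rw [h1, Finset.sum_const, Finset.card_erase_of_mem (Finset.mem_range.2 hp0), Finset.card_range,
      nsmul_eq_mul, Nat.cast_sub (Nat.succ_le_of_lt hp0), Nat.cast_one, add_zero]
    by_cases hb : b = 0
    · subst hb
      simp
    · rw [if_neg (Nat.mul_ne_zero hp0.ne' hb), if_neg hb, padicValNat.mul hp0.ne' hb, padicValNat_self,
        add_comm 1]
      ring
  unfold harS
  rw [pow_succ', har_blocks, Finset.sum_congr rfl (fun b _ => key b), Finset.sum_add_distrib,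
    Finset.sum_const, Finset.card_range, nsmul_eq_mul]
  push_cast
  ring

theorem har_dvd (p : ℕ) [Fact p.Prime] (n : ℕ) : ∀ (s : ℕ) (f : ℕ → ℤ),
    (∀ j < n, (p : ℤ) ^ (j + 1 + s) ∣ f (j + 1) - f j) →
    (p : ℤ) ^ (n + 1 + s) ∣ harS p (n + 1) f + f n - (p : ℤ) ^ (n + 1) * f 0 := by
  induction n with
  | zero =>
    intro s f _
    rw [harS_succ]
    have h0 : harS p 0 (fun j => f (j + 1)) = 0 := by simp [harS]
    rw [h0]
    have e : ((p : ℤ) ^ (0 + 1) - (p : ℤ) ^ 0) * f 0 + 0 + f 0 - (p : ℤ) ^ (0 + 1) * f 0 = 0 := by ring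
    rw [e]
    exact dvd_zero _
  | succ n ih =>
    intro s f hf
    rw [harS_succ]
    have h1 := ih (s + 1) (fun j => f (j + 1)) (fun j hj => by
      have := hf (j + 1) (by omega)
      rw [show j + 1 + (s + 1) = j + 1 + 1 + s by ring]
      exact this)
    have h2 := hf 0 (by omega)
    have e : ((p : ℤ) ^ (n + 1 + 1) - (p : ℤ) ^ (n + 1)) * f 0 + harS p (n + 1) (fun j => f (j + 1)) +
        f (n + 1) - (p : ℤ) ^ (n + 1 + 1) * f 0 =
        (harS p (n + 1) (fun j => f (j + 1)) + f (n + 1) - (p : ℤ) ^ (n + 1) * f (0 + 1)) +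
        (p : ℤ) ^ (n + 1) * (f (0 + 1) - f 0) := by ring
    rw [e]
    apply dvd_add
    · rw [show n + 1 + 1 + s = n + 1 + (s + 1) by ring]
      exact h1
    · rw [show n + 1 + 1 + s = (n + 1) + (0 + 1 + s) by ring, pow_add]
      exact mul_dvd_mul_left _ h2

theorem har_cyc (p : ℕ) [hp : Fact p.Prime] {Q : Type} [Group Q] [Fintype Q] (i' : Q → ℕ) (n : ℕ)
    (q0 : Q) (hgen : ∀ x, x ∈ Subgroup.zpowers q0) (hcard : Fintype.card Q = p ^ (n + 1))
    (f : ℕ → ℤ) (hf : ∀ a, a ≠ 0 → a < p ^ (n + 1) → (i' (q0 ^ a) : ℤ) = f (padicValNat p a))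
    (hmono : ∀ j < n, f j < f (j + 1))
    (hdvd : ∀ j < n, (p : ℤ) ^ (j + 1) ∣ f (j + 1) - f j) :
    ∃ m : ℤ, Phi i' (lev i' {q | q ≠ 1}) = m := by
  have hp1 := hp.out.one_lt
  have hord : orderOf q0 = p ^ (n + 1) := by
    rw [← hcard, ← Nat.card_eq_fintype_card]
    exact orderOf_eq_card_of_forall_mem_zpowers hgen
  have hmono' : ∀ j, j ≤ n → f j ≤ f n := by
    intro j hj
    obtain ⟨d, rfl⟩ := Nat.exists_eq_add_of_le hj
    clear hj hdvd hf hcard hord
    induction d with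
    | zero => exact le_rfl
    | succ d ih =>
      have h1 := ih (fun j hj => hmono j (by omega))
      have h2 := hmono (j + d) (by omega)
      exact h1.trans h2.le
  have hvlt : ∀ a, a ≠ 0 → a < p ^ (n + 1) → padicValNat p a ≤ n := by
    intro a ha0 ha
    by_contra hcon
    push Not at hcon
    have h1 : p ^ (n + 1) ∣ a := (padicValNat_dvd_iff_le ha0).2 hcon
    exact absurd (Nat.le_of_dvd (Nat.pos_of_ne_zero ha0) h1) (not_le.2 ha)
  have hrep : ∀ q : Q, q ≠ 1 → ∃ a, a ≠ 0 ∧ a < p ^ (n + 1) ∧ q0 ^ a = q := by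
    intro q hq
    obtain ⟨a, ha⟩ := (Subgroup.mem_zpowers_iff).1 (hgen q)
    have h1 := IsCyclic.image_range_orderOf hgen
    have h2 : q ∈ Finset.image (fun i => q0 ^ i) (Finset.range (orderOf q0)) := by
      rw [h1]; exact Finset.mem_univ q
    obtain ⟨b, hb, hb2⟩ := Finset.mem_image.1 h2
    rw [Finset.mem_range, hord] at hb
    refine ⟨b, ?_, hb, hb2⟩
    rintro rfl
    exact hq (by rw [← hb2]; exact pow_zero q0)
  have hpn : p ^ n < p ^ (n + 1) := Nat.pow_lt_pow_right hp1 (Nat.lt_succ_self n)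
  have hpn0 : p ^ n ≠ 0 := pow_ne_zero n hp.out.ne_zero
  have hne : q0 ^ (p ^ n) ≠ 1 := by
    intro h
    have h1 := orderOf_dvd_of_pow_eq_one h
    rw [hord] at h1
    exact absurd (Nat.le_of_dvd (Nat.pos_of_ne_zero hpn0) h1) (not_le.2 hpn)
  have hlev : ((lev i' {q | q ≠ 1} : ℕ) : ℤ) = f n := by
    have h1 : (i' (q0 ^ (p ^ n)) : ℤ) = f n := by
      rw [hf _ hpn0 hpn, padicValNat.prime_pow]
    apply le_antisymm
    · have h2 : lev i' {q | q ≠ 1} ≤ i' (q0 ^ (p ^ n)) := by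
        apply lev_le
        intro q hq
        obtain ⟨a, ha0, ha, rfl⟩ := hrep q hq
        have h3 := hf a ha0 ha
        have h4 := hmono' _ (hvlt a ha0 ha)
        rw [← h3, ← h1] at h4
        exact_mod_cast h4
      rw [← h1]
      exact_mod_cast h2
    · rw [← h1]
      exact_mod_cast le_lev i' {q | q ≠ 1} (show q0 ^ (p ^ n) ∈ {q | q ≠ 1} from hne)
  have hsum : (∑ q : Q, ((mi i' (lev i' {q | q ≠ 1}) q : ℕ) : ℤ)) = f n + harS p (n + 1) f := by
    rw [← IsCyclic.image_range_orderOf hgen, Finset.sum_image (by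
      intro a ha b hb hab
      rw [Finset.mem_coe, Finset.mem_range] at ha hb
      exact pow_injOn_Iio_orderOf ha hb hab), hord]
    unfold harS
    have hmem0 : 0 ∈ Finset.range (p ^ (n + 1)) := Finset.mem_range.2 (by positivity)
    rw [← Finset.add_sum_erase _ _ hmem0, ← Finset.add_sum_erase _ (fun a => if a = 0 then (0 : ℤ)
      else f (padicValNat p a)) hmem0]
    have e1 : ((mi i' (lev i' {q | q ≠ 1}) (q0 ^ 0) : ℕ) : ℤ) = f n := by
      unfold mi
      rw [pow_zero, if_pos rfl, hlev]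
    rw [e1, if_pos rfl, zero_add]
    congr 1
    apply Finset.sum_congr rfl
    intro a ha
    rw [Finset.mem_erase, Finset.mem_range] at ha
    have hane : q0 ^ a ≠ 1 := by
      intro h
      have h1 := orderOf_dvd_of_pow_eq_one h
      rw [hord] at h1
      exact absurd (Nat.le_of_dvd (Nat.pos_of_ne_zero ha.1) h1) (not_le.2 ha.2)
    unfold mi
    rw [if_neg hane, if_neg ha.1, min_eq_left (le_lev i' _ hane), hf a ha.1 ha.2]
  obtain ⟨m, hm⟩ : (p : ℤ) ^ (n + 1) ∣ f n + harS p (n + 1) f := by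
    have h1 := har_dvd p n 0 f (fun j hj => hdvd j hj)
    rw [add_zero] at h1
    have h2 : f n + harS p (n + 1) f = (harS p (n + 1) f + f n - (p : ℤ) ^ (n + 1) * f 0) +
        (p : ℤ) ^ (n + 1) * f 0 := by ring
    rw [h2]
    exact dvd_add h1 (Dvd.intro _ rfl)
  refine ⟨m, ?_⟩
  unfold Phi
  have h3 : (∑ g : Q, ((mi i' (lev i' {q | q ≠ 1}) g : ℕ) : ℚ)) = ((f n + harS p (n + 1) f : ℤ) : ℚ) := by
    rw [← hsum]
    push_cast
    rfl
  rw [h3, hm, hcard]
  have hp0 : (p : ℚ) ≠ 0 := by exact_mod_cast hp.out.ne_zero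
  push_cast
  field_simp

/-! ### the quotient -/

theorem har_smul (c : ℕ) (hc : 0 < c) (x : WithTop ℤ) (a : ℤ)
    (h : (((c : ℤ) * a : ℤ) : WithTop ℤ) = c • x) : x = (a : WithTop ℤ) := by
  cases x with
  | top =>
    exfalso
    have : (c : ℕ) • (⊤ : WithTop ℤ) = ⊤ := by
      obtain ⟨c', rfl⟩ : ∃ c', c = c' + 1 := ⟨c - 1, by omega⟩
      rw [succ_nsmul, WithTop.add_top]
    rw [this] at h
    exact WithTop.coe_ne_top h
  | coe b =>
    rw [← WithTop.coe_nsmul] at h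
    have h1 := WithTop.coe_injective h
    rw [nsmul_eq_mul] at h1
    have h3 : b = a := (mul_left_cancel₀ (by exact_mod_cast hc.ne') h1).symm
    rw [h3]

theorem har_lt (c : ℕ) (x y : WithTop ℤ) (h : c • x < c • y) : x < y := by
  by_contra hcon
  exact absurd (nsmul_le_nsmul_right (not_lt.1 hcon) c) (not_le.2 h)

section act

variable {G k M : Type} [Field k] [Field M] [Group G] [MulSemiringAction G M]
  {ι : k →+* M} {v : AddValuation M (WithTop ℤ)}

theorem har_mem (H : Subgroup G) [hH : H.Normal] (g : G) {y : M}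
    (hy : y ∈ FixedPoints.subfield H M) : g • y ∈ FixedPoints.subfield H M := by
  intro h
  have h1 : (⟨g⁻¹ * h * g, by
      have := hH.conj_mem h h.2 g⁻¹
      rwa [inv_inv] at this⟩ : H) • y = y := hy _
  have h2 : (g⁻¹ * (h : G) * g) • y = y := h1
  show (h : G) • (g • y) = g • y
  rw [← mul_smul]
  have e : (h : G) * g = g * (g⁻¹ * h * g) := by group
  rw [e, mul_smul, h2]

/-- the automorphism of the fixed field -/
def harE (H : Subgroup G) [H.Normal] (g : G) :
    FixedPoints.subfield H M ≃+* FixedPoints.subfield H M where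
  toFun y := ⟨g • (y : M), har_mem H g y.2⟩
  invFun y := ⟨g⁻¹ • (y : M), har_mem H g⁻¹ y.2⟩
  left_inv y := Subtype.ext (inv_smul_smul g (y : M))
  right_inv y := Subtype.ext (smul_inv_smul g (y : M))
  map_mul' y z := Subtype.ext (smul_mul' g (y : M) z)
  map_add' y z := Subtype.ext (smul_add g (y : M) z)

theorem harE_pow (H : Subgroup G) [H.Normal] (g : G) (a : ℕ) (y : FixedPoints.subfield H M) :
    (((harE H g) ^ a) y : M) = g ^ a • (y : M) := by
  induction a generalizing y with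
  | zero => rw [pow_zero, pow_zero, one_smul]; rfl
  | succ a ih =>
    rw [pow_succ, pow_succ, mul_smul]
    exact ih (harE H g y)

theorem har_pow_le (hGS : GS G ι v) (g : G) (x : M) (u : ℕ) :
    v (g • x - x) ≤ v (g ^ u • x - x) := by
  induction u with
  | zero =>
    rw [pow_zero, one_smul, sub_self, AddValuation.map_zero]
    exact le_top
  | succ u ih =>
    have e : g ^ (u + 1) • x - x = g ^ u • (g • x - x) + (g ^ u • x - x) := by
      rw [pow_succ, mul_smul, smul_sub]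
      ring
    rw [e]
    refine le_trans (le_min ?_ ih) (AddValuation.map_add v _ _)
    rw [hGS.inv]

end act

theorem st_HAR (hSEN : ST_SEN) (hSN0 : ST_SN0) (hHRB : ST_HRB) (hFIX : ST_FIX) (hPHQ : ST_PHQ)
    (hRFI : ST_RFI) : ST_HAR := by
  intro p hp G k M _ _ _ _ _ _ ι v hGS hP H _ hH hcyc
  obtain ⟨ιF, vF, hιF, hvF, hRV⟩ := hFIX G k M ι v hGS H
  obtain ⟨π, hπ⟩ := hRV.uni
  obtain ⟨c, hc⟩ : ∃ c, c = Nat.card H := ⟨_, rfl⟩
  rw [← hc] at hvF
  have hc0 : 0 < c := by rw [hc]; exact Nat.card_pos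
  have hvπ : v (π : M) = ((c : ℤ) : WithTop ℤ) := by
    rw [hvF, hπ]
    have : ((1 : WithTop ℤ)) = ((1 : ℤ) : WithTop ℤ) := rfl
    rw [this, ← WithTop.coe_nsmul, nsmul_eq_mul, mul_one]
  have hπH : ∀ h ∈ H, h • (π : M) = π := fun h hh => π.2 ⟨h, hh⟩
  -- the values
  have hval : ∀ g : G, g ∉ H → ∃ z : ℕ, c * z = ∑ h : H, ram v (g * (h : G)) ∧
      v (g • (π : M) - π) = ((((c * z : ℕ)) : ℤ) : WithTop ℤ) ∧
      vF (harE H g π - π) = ((z : ℤ) : WithTop ℤ) := by
    intro g hg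
    have h1 := hHRB G k M ι v hGS H (π : M) hπH (by rw [← hc]; exact hvπ) g hg
    have h2 : v (g • (π : M) - π) = c • vF (harE H g π - π) := by
      rw [← hvF]
      rfl
    rw [h1] at h2
    have h3 : vF (harE H g π - π) ≠ ⊤ := by
      intro h
      rw [h] at h2
      have : (c : ℕ) • (⊤ : WithTop ℤ) = ⊤ := by
        obtain ⟨c', hc'⟩ : ∃ c', c = c' + 1 := ⟨c - 1, by omega⟩
        rw [hc', succ_nsmul, WithTop.add_top]
      rw [this] at h2
      exact WithTop.coe_ne_top h2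
    obtain ⟨z, hz⟩ := WithTop.ne_top_iff_exists.1 h3
    rw [← hz, ← WithTop.coe_nsmul, nsmul_eq_mul] at h2
    have h4 := WithTop.coe_injective h2
    have hz0 : 0 ≤ z := by
      by_contra hcon
      push Not at hcon
      have : (c : ℤ) * z < 0 := mul_neg_of_pos_of_neg (by exact_mod_cast hc0) hcon
      rw [← h4] at this
      exact absurd this (not_lt.2 (Int.natCast_nonneg _))
    obtain ⟨z', rfl⟩ := Int.eq_ofNat_of_zero_le hz0
    have h5 : c * z' = ∑ h : H, ram v (g * (h : G)) := by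
      exact_mod_cast h4.symm
    refine ⟨z', h5, ?_, hz.symm⟩
    rw [h1, h5]
  obtain ⟨z, hz⟩ : ∃ z : G → ℕ, ∀ g : G, g ∉ H → c * z g = ∑ h : H, ram v (g * (h : G)) ∧
      v (g • (π : M) - π) = ((((c * z g : ℕ)) : ℤ) : WithTop ℤ) ∧
      vF (harE H g π - π) = ((z g : ℤ) : WithTop ℤ) := by
    have hch : ∀ g : G, ∃ z : ℕ, g ∉ H → c * z = ∑ h : H, ram v (g * (h : G)) ∧
        v (g • (π : M) - π) = ((((c * z : ℕ)) : ℤ) : WithTop ℤ) ∧
        vF (harE H g π - π) = ((z : ℤ) : WithTop ℤ) := by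
      intro g
      by_cases hg : g ∈ H
      · exact ⟨0, fun h => absurd hg h⟩
      · obtain ⟨z, hz⟩ := hval g hg
        exact ⟨z, fun _ => hz⟩
    choose z hz using hch
    exact ⟨z, hz⟩
  -- the value depends only on the coset
  have hcoset : ∀ g g' : G, (g : G ⧸ H) = (g' : G ⧸ H) → g • (π : M) = g' • (π : M) := by
    intro g g' h
    rw [QuotientGroup.eq] at h
    have h1 := hπH _ h
    rw [mul_smul, inv_smul_eq_iff] at h1
    exact h1.symm
  have hout : ∀ g : G, g ∉ H → ((g : G ⧸ H).out : G) ∉ H := by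
    intro g hg h
    apply hg
    have h1 : (((g : G ⧸ H).out : G) : G ⧸ H) = 1 := (QuotientGroup.eq_one_iff _).2 h
    rw [QuotientGroup.out_eq'] at h1
    exact (QuotientGroup.eq_one_iff g).1 h1
  have hzo : ∀ g g' : G, g ∉ H → g' ∉ H → g • (π : M) = g' • (π : M) → z g = z g' := by
    intro g g' hg hg' h
    have h1 := (hz g hg).2.1
    have h2 := (hz g' hg').2.1
    rw [h, h2] at h1
    have h3 := WithTop.coe_injective h1
    have h4 : c * z g' = c * z g := by exact_mod_cast h3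
    exact (Nat.eq_of_mul_eq_mul_left hc0 h4).symm
  obtain ⟨i', hi'⟩ : ∃ i' : G ⧸ H → ℕ, ∀ g : G, g ∉ H → i' (g : G ⧸ H) = z g :=
    ⟨fun q => z q.out, fun g hg => hzo _ _ (hout g hg) hg (hcoset _ _ (QuotientGroup.out_eq' _))⟩
  have hRF := hRFI G k M ι v hGS
  -- the cyclic quotient
  obtain ⟨q0, hq0⟩ := IsCyclic.exists_generator (α := G ⧸ H)
  obtain ⟨g0, hg0⟩ := QuotientGroup.mk_surjective q0
  obtain ⟨n', hn'⟩ := IsPGroup.iff_card.1 (hP.to_quotient H)
  have hn0 : n' ≠ 0 := by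
    rintro rfl
    rw [pow_zero] at hn'
    apply hH
    have h1 : H.index = 1 := hn'
    exact Subgroup.index_eq_one.1 h1
  obtain ⟨n, rfl⟩ := Nat.exists_eq_succ_of_ne_zero hn0
  have hord : orderOf q0 = p ^ (n + 1) := by
    rw [orderOf_eq_card_of_forall_mem_zpowers hq0, hn']
  have hgH : ∀ a, g0 ^ a ∈ H ↔ p ^ (n + 1) ∣ a := by
    intro a
    rw [← hord, orderOf_dvd_iff_pow_eq_one, ← hg0, ← QuotientGroup.eq_one_iff]
    rfl
  have hp1 := hp.out.one_lt
  have hpj : ∀ j, j ≤ n → g0 ^ (p ^ j) ∉ H := by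
    intro j hj h
    rw [hgH, Nat.pow_dvd_pow_iff_le_right hp1] at h
    omega
  have hqpow : ∀ a, ((g0 ^ a : G) : G ⧸ H) = q0 ^ a := by
    intro a
    rw [← hg0]
    rfl
  -- Sen
  have hσv : ∀ x, vF (harE H g0 x) = vF x := by
    intro x
    have h1 : v ((harE H g0 x : FixedPoints.subfield H M) : M) = v (x : M) := hGS.inv g0 x
    rw [hvF, hvF] at h1
    by_contra hcon
    rcases lt_or_gt_of_ne hcon with h2 | h2
    · obtain ⟨a, ha⟩ := WithTop.ne_top_iff_exists.1 (ne_top_of_lt h2)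
      rw [← ha] at h1 h2
      rw [← WithTop.coe_nsmul, nsmul_eq_mul] at h1
      rw [har_smul c hc0 _ a h1] at h2
      exact lt_irrefl _ h2
    · obtain ⟨a, ha⟩ := WithTop.ne_top_iff_exists.1 (ne_top_of_lt h2)
      rw [← ha] at h1 h2
      rw [← WithTop.coe_nsmul, nsmul_eq_mul] at h1
      rw [har_smul c hc0 _ a h1.symm] at h2
      exact lt_irrefl _ h2
  have hσc : ∀ a, harE H g0 (ιF a) = ιF a := by
    intro a
    apply Subtype.ext
    show g0 • ((ιF a : FixedPoints.subfield H M) : M) = ((ιF a : FixedPoints.subfield H M) : M)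
    rw [hιF]
    exact hGS.fix g0 a
  have hσw : ∀ x, x ≠ 0 → vF x < vF (harE H g0 x - x) := by
    intro x hx
    apply har_lt c
    rw [← hvF, ← hvF]
    exact hGS.wild g0 (x : M) (fun h => hx (Subtype.ext h))
  have hi : ∀ j ≤ n, vF (((harE H g0) ^ (p ^ j)) π - π) = (((z (g0 ^ (p ^ j)) : ℕ) : ℤ) : WithTop ℤ) := by
    intro j hj
    rw [← (hz _ (hpj j hj)).2.2]
    congr 1
    apply Subtype.ext
    show (((harE H g0) ^ (p ^ j)) π : M) - π = g0 ^ (p ^ j) • (π : M) - π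
    rw [harE_pow]
  have hsen := hSEN p k (FixedPoints.subfield H M) ιF vF hRV (harE H g0) hσv hσc hσw π n
    (fun j => ((z (g0 ^ (p ^ j)) : ℕ) : ℤ)) hπ hi
  have hsn0 := (hSN0 p k (FixedPoints.subfield H M) ιF vF hRV (harE H g0) hσv hσc hσw π n
    (fun j => ((z (g0 ^ (p ^ j)) : ℕ) : ℤ)) hπ hi).1
  -- the quotient formula
  have hPH := hPHQ G (ram (G := G) v) hRF H i' (fun g hg => by
    rw [← hc, hi' g hg]
    exact (hz g hg).1) {q | q ≠ 1} ⟨q0, fun h => by
      have : q0 = 1 := h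
      rw [this, orderOf_one] at hord
      exact absurd hord.symm (Nat.one_lt_pow (Nat.succ_ne_zero n) hp1).ne'⟩ (fun h => h rfl)
  have hset : {g : G | (g : G ⧸ H) ∈ ({q | q ≠ 1} : Set (G ⧸ H))} = {g | g ∉ H} := by
    ext g
    show ¬ ((g : G ⧸ H) = 1) ↔ g ∉ H
    rw [QuotientGroup.eq_one_iff]
  rw [hset] at hPH
  rw [← hPH]
  refine har_cyc p i' n q0 hq0 (by rw [← Nat.card_eq_fintype_card, hn'])
    (fun j => ((z (g0 ^ (p ^ j)) : ℕ) : ℤ)) ?_ hsn0 hsen
  intro a ha0 ha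
  have haH : g0 ^ a ∉ H := by
    rw [hgH]
    intro h
    exact absurd (Nat.le_of_dvd (Nat.pos_of_ne_zero ha0) h) (not_le.2 ha)
  obtain ⟨j, hj⟩ : ∃ j, j = padicValNat p a := ⟨_, rfl⟩
  have hjn : j ≤ n := by
    by_contra hcon
    push Not at hcon
    have h1 : p ^ (n + 1) ∣ a := (padicValNat_dvd_iff_le ha0).2 (by omega)
    exact absurd (Nat.le_of_dvd (Nat.pos_of_ne_zero ha0) h1) (not_le.2 ha)
  obtain ⟨u, hu⟩ : p ^ j ∣ a := by rw [hj]; exact pow_padicValNat_dvd
  have hpu : ¬ p ∣ u := by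
    rintro ⟨w, rfl⟩
    have h1 : p ^ (j + 1) ∣ a := ⟨w, by rw [hu]; ring⟩
    have h2 := (padicValNat_dvd_iff_le ha0).1 h1
    omega
  obtain ⟨u', -, hu'⟩ := Nat.exists_mul_mod_eq_one_of_coprime (n := u) (k := p ^ (n + 1))
    (Nat.Coprime.pow_right _ ((hp.out.coprime_iff_not_dvd.2 hpu).symm))
    (Nat.one_lt_pow (Nat.succ_ne_zero n) hp1)
  rw [← hqpow, hi' _ haH, ← hj]
  show ((z (g0 ^ a) : ℕ) : ℤ) = ((z (g0 ^ (p ^ j)) : ℕ) : ℤ)
  have hle1 : v (g0 ^ (p ^ j) • (π : M) - π) ≤ v (g0 ^ a • (π : M) - π) := by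
    have := har_pow_le hGS (g0 ^ (p ^ j)) (π : M) u
    rwa [← pow_mul, ← hu] at this
  have hle2 : v (g0 ^ a • (π : M) - π) ≤ v (g0 ^ (p ^ j) • (π : M) - π) := by
    have h1 := har_pow_le hGS (g0 ^ a) (π : M) u'
    rw [← pow_mul] at h1
    have h2 : g0 ^ (a * u') • (π : M) = g0 ^ (p ^ j) • (π : M) := by
      apply hcoset
      rw [hqpow, hqpow]
      have h3 : a * u' = p ^ j + p ^ j * (u * u' - 1) := by
        have h4 : 1 ≤ u * u' := by
          by_contra hcon
          have h5 : u * u' = 0 := by omega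
          rw [h5, Nat.zero_mod] at hu'
          omega
        rw [hu, mul_assoc]
        obtain ⟨w, hw⟩ : ∃ w, u * u' = w + 1 := ⟨u * u' - 1, by omega⟩
        rw [hw, Nat.add_sub_cancel]
        ring
      have h5 : p ^ (n + 1) ∣ u * u' - 1 := by
        have h6 : u * u' = p ^ (n + 1) * (u * u' / p ^ (n + 1)) + 1 := by
          rw [← hu']
          rw [hu']
          have := Nat.div_add_mod (u * u') (p ^ (n + 1))
          rw [hu'] at this
          exact this.symm
        exact ⟨u * u' / p ^ (n + 1), by omega⟩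
      rw [h3, pow_add]
      have h7 : q0 ^ (p ^ j * (u * u' - 1)) = 1 := by
        rw [← orderOf_dvd_iff_pow_eq_one, hord]
        exact dvd_mul_of_dvd_right h5 _
      rw [h7, mul_one]
    rw [h2] at h1
    exact h1
  have heq := le_antisymm hle1 hle2
  rw [(hz _ haH).2.1, (hz _ (hpj j hjn)).2.1] at heq
  have h8 := WithTop.coe_injective heq
  have h9 : c * z (g0 ^ (p ^ j)) = c * z (g0 ^ a) := by exact_mod_cast h8
  rw [Nat.eq_of_mul_eq_mul_left hc0 h9]

end Pool.Agent.Helper22.NP
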